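import Pool.Agent.V11309.Anti.Piece

set_option linter.all false
set_option maxRecDepth 100000

namespace Pool.Agent.V11309.Anti.S2

open Pool.Agent.V11309.Anti

/-- the system. -/
def S : Sy := ⟨3, 5, 1, 1,
  [⟨2, 1, 0, [[0], [1, 3, 9], [2, 4, 6, 10, 12, 18], [5, 7, 11, 13, 15, 19, 21], [8, 14, 16, 20, 22, 24], [17, 23, 25], [26]], [[0], [1, 3, 9], [4, 10, 12], [13], [], [], []]⟩]⟩

/-- part of the tree. -/
def t0 : Tr :=
  (.node
   (.node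
    (.node
     (.node
      (.node
       (.leaf ⟨1, 2, 2, 1, [3, 4, 5, 0, 0, 0, 0, 0, 0], [0x1000, 0, 0], [12, 0, 0]⟩)
       (.leaf ⟨0, 0, 0, 0, [15, 10, 16, 10, 17, 18, 15, 19, 16], [0x228208000, 0x10514554, 0], [0x2103a06c0a80f, 0xe0160280400700a01001802002, 0]⟩))
      (.leaf ⟨1, 1, 1, 1, [0, 0, 0, 11, 19, 20, 0, 0, 0], [0x545000, 0, 0], [0x160280480700c, 0, 0]⟩))
     (.node
      (.node
       (.leaf ⟨0, 1, 1, 1, [0, 0, 0, 12, 13, 14, 0, 0, 0], [0x8000000, 0x515000, 0], [27, 0x160280400700c, 0]⟩)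
       (.leaf ⟨0, 0, 0, 0, [15, 14, 11, 10, 11, 14, 17, 19, 20], [0xaaa02080, 0x414104, 0], [0x3e0740d81902e05406807, 0x1602003804002, 0]⟩))
      (.leaf ⟨1, 0, 0, 0, [12, 15, 14, 9, 10, 16, 10, 11, 19], [0, 0xa8aaa8a8, 0x10100], [0, 0x1f03a06c0b8150260440780d01601c02803, 0x8008]⟩)))
    (.node
     (.node
      (.node
       (.leaf ⟨1, 2, 2, 1, [7, 6, 8, 0, 0, 0, 0, 0, 0], [256, 0, 0], [8, 0, 0]⟩)
       (.leaf ⟨1, 0, 0, 0, [12, 13, 14, 15, 19, 16, 10, 17, 18], [0x145050040, 0x20a28a0, 0], [0x800f01a03004808006, 0x640981101a02c03805, 0]⟩))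
      (.leaf ⟨1, 0, 0, 0, [10, 11, 14, 9, 10, 11, 10, 17, 19], [0, 0xaaa2aaa8, 0x10000], [0, 0xf81d0360640b81502203c0680b01201c02803, 16]⟩))
     (.node
      (.leaf ⟨0, 1, 1, 1, [0, 0, 0, 10, 17, 18, 0, 0, 0], [0xa08000, 0x10000, 0], [0x5c0a80f, 16, 0]⟩)
      (.leaf ⟨1, 0, 0, 0, [10, 13, 14, 15, 14, 11, 12, 17, 18], [0x41001040, 0x228aa0a0, 0], [0x3c06006006, 0x1d03205c0981101e03403805, 0]⟩))))
   (.node
    (.node
     (.node
      (.node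
       (.leaf ⟨0, 2, 2, 1, [4, 5, 6, 0, 0, 0, 0, 0, 0], [0xa00, 0, 0], [0x5809, 0, 0]⟩)
       (.leaf ⟨0, 0, 0, 0, [9, 10, 16, 10, 17, 19, 15, 14, 16], [0x208200000, 0x10455550, 0], [0x840d815, 0xe0160240400700c01402003004, 0]⟩))
      (.leaf ⟨0, 0, 0, 0, [9, 10, 11, 12, 13, 14, 9, 10, 11], [0, 0x45515140, 0x800a2000], [0, 0xf01a0300580a01001c03004006, 0x3e04c0880d]⟩))
     (.node
      (.node
       (.leaf ⟨1, 1, 1, 1, [0, 0, 0, 15, 14, 16, 0, 0, 0], [0x1040000, 0x82800, 0], [0xc012, 0x4c0680b, 0]⟩)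
       (.leaf ⟨1, 0, 0, 0, [10, 15, 10, 9, 10, 17, 10, 17, 10], [0, 0x2aa2aa28, 0x114114044], [0, 0x3a06c0c81702a0440780d01602402803, 0x400700d01402003803002]⟩))
      (.leaf ⟨0, 0, 0, 0, [9, 10, 11, 12, 17, 18, 15, 14, 16], [0x8000, 0x54554550, 0x2000], [15, 0x3c0700d0160280480800e01402003004, 13]⟩)))
    (.node
     (.node
      (.node
       (.leaf ⟨1, 1, 1, 1, [0, 0, 0, 9, 10, 11, 0, 0, 0], [0, 0x2a28000, 0], [0, 0x1902e0540880f, 0]⟩)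
       (.leaf ⟨1, 0, 0, 0, [12, 15, 14, 15, 10, 16, 10, 11, 18], [0x45040000, 0x8288a8a8, 0], [0x3c0680c012, 0xf81902e04c0780d01601c02803, 0]⟩))
      (.leaf ⟨0, 0, 0, 0, [9, 10, 16, 10, 17, 18, 15, 10, 16], [0x8008200, 0x114554410, 0], [0x6c07809, 0x1001c0340580a01202003805004, 0]⟩))
     (.node
      (.leaf ⟨1, 1, 1, 1, [0, 0, 0, 15, 14, 16, 0, 0, 0], [0x1000000, 0xa2800, 0], [24, 0x260440680b, 0]⟩)
      (.leaf ⟨0, 0, 0, 0, [15, 10, 16, 21, 13, 14, 15, 14, 16], [0, 0x55544554, 0x82000], [0, 0x1e0380680c0160280480700a01001802002, 0x980d]⟩)))))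

/-- the tree. -/
def T : Tr := t0

theorem c0 : Tr.all (chk S T) t0 = true := by decide +kernel

theorem hT : Tr.all (chk S T) T = true := c0

theorem ok : ∀ j < S.J, Ok (S.cb j) (S.cb j).tab 2 := by unfold Ok; decide +kernel

theorem ok1 : ∀ j < S.J, Ok (S.cb j) (S.cb j).tab1 1 := by unfold Ok; decide +kernel

theorem p101 : PieceOK 0 3 10 :=
  piece_of_root S T ok ok1 (by decide) hT (ptr := [0, 1, 2]) (by decide) (by decide) (by decide)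
    (by decide +kernel)

end Pool.Agent.V11309.Anti.S2
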