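import Pool.Agent.V11309.Anti.Piece

set_option linter.all false
set_option maxRecDepth 100000

namespace Pool.Agent.V11309.Anti.S9

open Pool.Agent.V11309.Anti

/-- the system. -/
def S : Sy := ⟨2, 6, 1, 1,
  [⟨2, 1, 0, [[0], [1, 3, 9], [2, 4, 6, 10, 12, 18], [5, 7, 11, 13, 15, 19, 21], [8, 14, 16, 20, 22, 24], [17, 23, 25], [26]], [[0], [1, 3, 9], [4, 10, 12], [13], [], [], []]⟩]⟩

/-- part of the tree. -/
def t0 : Tr :=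
  (.node
   (.node
    (.node
     (.node
      (.node
       (.leaf ⟨0, 2, 2, 1, [9, 10, 6, 0, 0, 0, 0, 0, 0], [0, 256, 0], [0, 8, 0]⟩)
       (.leaf ⟨1, 1, 1, 2, [0, 0, 0, 0, 0, 0, 25, 23, 22], [0, 0x8000, 0x400], [0, 15, 10]⟩))
      (.node
       (.leaf ⟨0, 2, 1, 1, [0, 0, 0, 10, 21, 19, 0, 0, 0], [0xa00, 0, 0], [0x5809, 0, 0]⟩)
       (.leaf ⟨0, 0, 0, 0, [24, 25, 15, 25, 23, 22, 27, 22, 15], [0, 0x1000, 0x20a2], [0, 12, 0x1a01c02801]⟩)))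
     (.node
      (.node
       (.leaf ⟨1, 2, 2, 2, [16, 17, 18, 0, 0, 0, 0, 0, 0], [0x1000, 0, 0], [12, 0, 0]⟩)
       (.leaf ⟨0, 1, 0, 0, [27, 10, 15, 25, 15, 19, 27, 22, 15], [0, 0x11100, 0], [0, 0x4006008, 0]⟩))
      (.node
       (.leaf ⟨0, 1, 1, 1, [0, 0, 0, 26, 27, 22, 0, 0, 0], [0, 0x15000, 0], [0, 0x400700c, 0]⟩)
       (.leaf ⟨0, 0, 0, 0, [23, 22, 28, 25, 15, 19, 15, 19, 28], [0x8800, 0x410, 0], [0x780b, 0x5004, 0]⟩))))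
    (.node
     (.node
      (.node
       (.leaf ⟨0, 2, 2, 1, [9, 10, 6, 0, 0, 0, 0, 0, 0], [0xa00, 0, 0], [0x5809, 0, 0]⟩)
       (.leaf ⟨1, 1, 1, 2, [0, 0, 0, 0, 0, 0, 25, 23, 22], [0x40000, 0x2000, 0], [18, 13, 0]⟩))
      (.node
       (.leaf ⟨1, 0, 0, 0, [10, 15, 19, 24, 10, 15, 10, 15, 19], [0, 0x2820, 0], [0, 0x3405805, 0]⟩)
       (.leaf ⟨1, 0, 0, 0, [26, 24, 10, 24, 25, 15, 25, 23, 22], [0, 0, 0x4500], [0, 0, 0x3805008]⟩)))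
     (.node
      (.node
       (.leaf ⟨0, 1, 1, 1, [0, 0, 0, 10, 15, 19, 0, 0, 0], [0, 256, 0], [0, 8, 0]⟩)
       (.leaf ⟨1, 0, 0, 0, [25, 15, 19, 23, 22, 15, 10, 15, 19], [0, 0x8a0, 0], [0, 0x2c03805, 0]⟩))
      (.leaf ⟨0, 1, 1, 2, [0, 0, 0, 0, 0, 0, 27, 10, 15], [0, 0x44000, 0], [0, 0x900e, 0]⟩))))
   (.node
    (.node
     (.node
      (.node
       (.leaf ⟨1, 2, 2, 1, [11, 12, 13, 0, 0, 0, 0, 0, 0], [0x1000, 0, 0], [12, 0, 0]⟩)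
       (.leaf ⟨0, 1, 1, 2, [0, 0, 0, 0, 0, 0, 27, 10, 15], [0, 0x14000, 0], [0, 0x800e, 0]⟩))
      (.node
       (.leaf ⟨0, 1, 1, 1, [0, 0, 0, 22, 23, 22, 0, 0, 0], [0, 0x1040, 128], [0, 0x6006, 7]⟩)
       (.leaf ⟨1, 0, 0, 0, [25, 23, 22, 27, 10, 15, 10, 15, 19], [0, 0x800, 0x410], [0, 11, 0x5004]⟩)))
     (.node
      (.node
       (.leaf ⟨0, 2, 2, 2, [14, 10, 15, 0, 0, 0, 0, 0, 0], [0xa00, 0, 0], [0x5809, 0, 0]⟩)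
       (.leaf ⟨0, 1, 0, 0, [23, 22, 28, 22, 15, 19, 23, 22, 28], [0x8200, 0x410, 0], [0x7809, 0x5004, 0]⟩))
      (.leaf ⟨1, 1, 1, 1, [0, 0, 0, 27, 10, 15, 0, 0, 0], [0, 0x2800, 0], [0, 0x680b, 0]⟩)))
    (.node
     (.node
      (.node
       (.leaf ⟨0, 2, 2, 2, [14, 10, 15, 0, 0, 0, 0, 0, 0], [0, 256, 0], [0, 8, 0]⟩)
       (.leaf ⟨1, 0, 0, 0, [22, 15, 19, 23, 22, 28, 22, 15, 19], [0x5040, 130, 0], [0x3806006, 0x3801, 0]⟩))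
      (.node
       (.leaf ⟨1, 1, 1, 1, [0, 0, 0, 24, 25, 23, 0, 0, 0], [0, 0x8000, 0x400], [0, 15, 10]⟩)
       (.leaf ⟨0, 0, 0, 0, [24, 25, 23, 25, 23, 22, 27, 22, 15], [0, 0x1000, 0x2082], [0, 12, 0x3403801]⟩)))
     (.node
      (.node
       (.leaf ⟨1, 2, 1, 1, [0, 0, 0, 20, 10, 21, 0, 0, 0], [0x1000, 0, 0], [12, 0, 0]⟩)
       (.leaf ⟨0, 0, 0, 0, [24, 22, 15, 22, 23, 22, 23, 22, 28], [0, 0x4440, 0], [0, 0x3805006, 0]⟩))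
      (.leaf ⟨0, 0, 0, 0, [24, 10, 15, 25, 15, 19, 23, 22, 28], [0x8000, 0x500, 0], [15, 0x5008, 0]⟩)))))

/-- the tree. -/
def T : Tr := t0

theorem c0 : Tr.all (chk S T) t0 = true := by decide +kernel

theorem hT : Tr.all (chk S T) T = true := c0

theorem ok : ∀ j < S.J, Ok (S.cb j) (S.cb j).tab 2 := by unfold Ok; decide +kernel

theorem ok1 : ∀ j < S.J, Ok (S.cb j) (S.cb j).tab1 1 := by unfold Ok; decide +kernel

theorem p201 : PieceOK 1 3 19 :=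
  piece_of_root S T ok ok1 (by decide) hT (ptr := [0, 1, 2]) (by decide) (by decide) (by decide)
    (by decide +kernel)

theorem p202 : PieceOK 1 3 20 :=
  piece_of_root S T ok ok1 (by decide) hT (ptr := [3, 4, 5]) (by decide) (by decide) (by decide)
    (by decide +kernel)

theorem p21 : PieceOK 1 2 7 :=
  piece_of_root S T ok ok1 (by decide) hT (ptr := [6, 7, 8]) (by decide) (by decide) (by decide)
    (by decide +kernel)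

end Pool.Agent.V11309.Anti.S9
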