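import Mathlib

/-!
Folded automata for sums of three antipalindromic numbers in base 3: theory.
-/

namespace Pool.Agent.V11309.Anti

/-- `P L a`: the number `a` is the value of a string of `L` ternary digits (leading zeros
allowed) which is antipalindromic, built from the inside out. -/
inductive P : ℕ → ℕ → Prop
  | zero : P 0 0
  | one : P 1 1
  | step {L A : ℕ} (u : ℕ) (hu : u ≤ 2) (h : P L A) :
      P (L + 2) ((2 - u) * 3 ^ (L + 1) + 3 * A + u)

/-- the value of a state: see the file header. -/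
def V (d1 d2 d3 r M q c : ℕ) : Prop :=
  ∃ B1 B2 B3, P (r + d1) B1 ∧ P (r + d2) B2 ∧ P (r + d3) B3 ∧
    B1 + B2 + B3 + 3 ^ r * q + c = M + 3 ^ r * (3 ^ d1 + 3 ^ d2 + 3 ^ d3)

theorem step_arith (r d u B : ℕ) (hu : u ≤ 2) :
    (((2 - u) * 3 ^ (r + d + 1) + 3 * B + u : ℕ) : ℤ)
      = 2 * 3 ^ (r + 1) * 3 ^ d - u * (3 ^ (r + 1) * 3 ^ d) + 3 * B + u := by
  push_cast [Nat.cast_sub hu]
  ring

/-- the transition. -/
theorem V_step {d1 d2 d3 E r M' q q' c c' u1 u2 u3 dL dR : ℕ}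
    (h1 : u1 ≤ 2) (h2 : u2 ≤ 2) (h3 : u3 ≤ 2)
    (hq : 3 * q = q' + (u1 * 3 ^ d1 + u2 * 3 ^ d2 + u3 * 3 ^ d3) + dL * 3 ^ E)
    (hc : u1 + u2 + u3 + c = dR + 3 * c')
    (hV : V d1 d2 d3 r M' q' c') :
    V d1 d2 d3 (r + 2) (dL * 3 ^ (r + 1 + E) + 3 * M' + dR) q c := by
  obtain ⟨B1, B2, B3, hB1, hB2, hB3, hs⟩ := hV
  refine ⟨(2 - u1) * 3 ^ (r + d1 + 1) + 3 * B1 + u1, (2 - u2) * 3 ^ (r + d2 + 1) + 3 * B2 + u2,
    (2 - u3) * 3 ^ (r + d3 + 1) + 3 * B3 + u3, ?_, ?_, ?_, ?_⟩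
  · rw [show r + 2 + d1 = r + d1 + 2 by ring]; exact P.step u1 h1 hB1
  · rw [show r + 2 + d2 = r + d2 + 2 by ring]; exact P.step u2 h2 hB2
  · rw [show r + 2 + d3 = r + d3 + 2 by ring]; exact P.step u3 h3 hB3
  · have hs' : (B1 : ℤ) + B2 + B3 + 3 ^ r * q' + c' = M' + 3 ^ r * (3 ^ d1 + 3 ^ d2 + 3 ^ d3) := by
      exact_mod_cast hs
    have hq' : (3 : ℤ) * q = q' + (u1 * 3 ^ d1 + u2 * 3 ^ d2 + u3 * 3 ^ d3) + dL * 3 ^ E := by
      exact_mod_cast hq
    have hc' : (u1 : ℤ) + u2 + u3 + c = dR + 3 * c' := by exact_mod_cast hc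
    have key : ((((2 - u1) * 3 ^ (r + d1 + 1) + 3 * B1 + u1 : ℕ) : ℤ)
        + (((2 - u2) * 3 ^ (r + d2 + 1) + 3 * B2 + u2 : ℕ) : ℤ)
        + (((2 - u3) * 3 ^ (r + d3 + 1) + 3 * B3 + u3 : ℕ) : ℤ) + 3 ^ (r + 2) * q + c
        = (dL * 3 ^ (r + 1 + E) + 3 * M' + dR) + 3 ^ (r + 2) * (3 ^ d1 + 3 ^ d2 + 3 ^ d3)) := by
      rw [step_arith r d1 u1 B1 h1, step_arith r d2 u2 B2 h2, step_arith r d3 u3 B3 h3]
      have e1 : (3 : ℤ) ^ (r + 1 + E) = 3 ^ (r + 1) * 3 ^ E := by rw [pow_add]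
      have e2 : (3 : ℤ) ^ (r + 2) = 3 * 3 ^ (r + 1) := by ring
      have e3 : (3 : ℤ) ^ (r + 1) = 3 * 3 ^ r := by ring
      rw [e1, e2, e3]
      linear_combination 3 * hs' + 3 * 3 ^ r * hq' + hc'
    exact_mod_cast key

/-- the first transition: the three leading digits are nonzero. -/
theorem root_step {d1 d2 d3 E r M' q' c' u1 u2 u3 dL dR : ℕ}
    (h1 : u1 ≤ 1) (h2 : u2 ≤ 1) (h3 : u3 ≤ 1)
    (hq : 3 * (3 ^ d1 + 3 ^ d2 + 3 ^ d3)
      = q' + (u1 * 3 ^ d1 + u2 * 3 ^ d2 + u3 * 3 ^ d3) + dL * 3 ^ E)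
    (hc : u1 + u2 + u3 = dR + 3 * c')
    (hV : V d1 d2 d3 r M' q' c') :
    ∃ a1 a2 a3, P (r + 2 + d1) a1 ∧ P (r + 2 + d2) a2 ∧ P (r + 2 + d3) a3 ∧
      3 ^ (r + 1 + d1) ≤ a1 ∧ 3 ^ (r + 1 + d2) ≤ a2 ∧ 3 ^ (r + 1 + d3) ≤ a3 ∧
      a1 + a2 + a3 = dL * 3 ^ (r + 1 + E) + 3 * M' + dR := by
  obtain ⟨B1, B2, B3, hB1, hB2, hB3, hs⟩ := hV
  have big : ∀ d u B : ℕ, u ≤ 1 → 3 ^ (r + 1 + d) ≤ (2 - u) * 3 ^ (r + d + 1) + 3 * B + u := by
    intro d u B hu
    have : 1 ≤ 2 - u := by omega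
    calc 3 ^ (r + 1 + d) = 1 * 3 ^ (r + d + 1) := by rw [one_mul]; congr 1; ring
      _ ≤ (2 - u) * 3 ^ (r + d + 1) := Nat.mul_le_mul_right _ this
      _ ≤ _ := by omega
  refine ⟨(2 - u1) * 3 ^ (r + d1 + 1) + 3 * B1 + u1, (2 - u2) * 3 ^ (r + d2 + 1) + 3 * B2 + u2,
    (2 - u3) * 3 ^ (r + d3 + 1) + 3 * B3 + u3, ?_, ?_, ?_, big _ _ _ h1, big _ _ _ h2,
    big _ _ _ h3, ?_⟩
  · rw [show r + 2 + d1 = r + d1 + 2 by ring]; exact P.step u1 (by omega) hB1
  · rw [show r + 2 + d2 = r + d2 + 2 by ring]; exact P.step u2 (by omega) hB2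
  · rw [show r + 2 + d3 = r + d3 + 2 by ring]; exact P.step u3 (by omega) hB3
  · have hs' : (B1 : ℤ) + B2 + B3 + 3 ^ r * q' + c' = M' + 3 ^ r * (3 ^ d1 + 3 ^ d2 + 3 ^ d3) := by
      exact_mod_cast hs
    have hq' : (3 : ℤ) * (3 ^ d1 + 3 ^ d2 + 3 ^ d3)
        = q' + (u1 * 3 ^ d1 + u2 * 3 ^ d2 + u3 * 3 ^ d3) + dL * 3 ^ E := by
      exact_mod_cast hq
    have hc' : (u1 : ℤ) + u2 + u3 = dR + 3 * c' := by exact_mod_cast hc
    have key : ((((2 - u1) * 3 ^ (r + d1 + 1) + 3 * B1 + u1 : ℕ) : ℤ)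
        + (((2 - u2) * 3 ^ (r + d2 + 1) + 3 * B2 + u2 : ℕ) : ℤ)
        + (((2 - u3) * 3 ^ (r + d3 + 1) + 3 * B3 + u3 : ℕ) : ℤ)
        = (dL * 3 ^ (r + 1 + E) + 3 * M' + dR)) := by
      rw [step_arith r d1 u1 B1 (by omega), step_arith r d2 u2 B2 (by omega),
        step_arith r d3 u3 B3 (by omega)]
      have e1 : (3 : ℤ) ^ (r + 1 + E) = 3 ^ (r + 1) * 3 ^ E := by rw [pow_add]
      have e3 : (3 : ℤ) ^ (r + 1) = 3 * 3 ^ r := by ring
      rw [e1, e3]
      linear_combination 3 * hs' + 3 * 3 ^ r * hq' + hc'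
    exact_mod_cast key

/-! ### lists of inner strings -/

/-- all antipalindromic strings with `L` digits. -/
def pl : ℕ → List ℕ
  | 0 => [0]
  | 1 => [1]
  | L + 2 => (pl L).flatMap fun A => [2 * 3 ^ (L + 1) + 3 * A, 3 ^ (L + 1) + 3 * A + 1, 3 * A + 2]

theorem pl_spec : ∀ L a, a ∈ pl L → P L a
  | 0, a, h => by
    simp only [pl, List.mem_singleton] at h; subst h; exact P.zero
  | 1, a, h => by
    simp only [pl, List.mem_singleton] at h; subst h; exact P.one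
  | L + 2, a, h => by
    simp only [pl, List.mem_flatMap, List.mem_cons, List.not_mem_nil, or_false] at h
    obtain ⟨A, hA, h⟩ := h
    have hP := pl_spec L A hA
    rcases h with rfl | rfl | rfl
    · simpa using P.step 0 (by norm_num) hP
    · simpa using P.step 1 (by norm_num) hP
    · simpa using P.step 2 (by norm_num) hP

/-! ### bit masks -/

/-- the union of the translates of `m` by the elements of `l`. -/
def shifts (l : List ℕ) (m : ℕ) : ℕ := l.foldr (fun a s => (m <<< a) ||| s) 0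

theorem shifts_spec {l : List ℕ} {m x : ℕ} (h : (shifts l m).testBit x = true) :
    ∃ a ∈ l, a ≤ x ∧ m.testBit (x - a) = true := by
  induction l with
  | nil => simp [shifts] at h
  | cons b l ih =>
    simp only [shifts, List.foldr_cons, Nat.testBit_or, Bool.or_eq_true] at h
    rcases h with h | h
    · rw [Nat.testBit_shiftLeft] at h
      simp only [Bool.and_eq_true, decide_eq_true_eq] at h
      exact ⟨b, by simp, h.1, h.2⟩
    · obtain ⟨a, ha, h1⟩ := ih h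
      exact ⟨a, by simp [ha], h1⟩

/-- the mask of sums of three inner strings. -/
def zm (L1 L2 L3 : ℕ) : ℕ := shifts (pl L1) (shifts (pl L2) (shifts (pl L3) 1))

theorem zm_spec {L1 L2 L3 x : ℕ} (h : (zm L1 L2 L3).testBit x = true) :
    ∃ B1 B2 B3, P L1 B1 ∧ P L2 B2 ∧ P L3 B3 ∧ B1 + B2 + B3 = x := by
  obtain ⟨B1, hB1, h1, h⟩ := shifts_spec h
  obtain ⟨B2, hB2, h2, h⟩ := shifts_spec h
  obtain ⟨B3, hB3, h3, h⟩ := shifts_spec h
  refine ⟨B1, B2, B3, pl_spec _ _ hB1, pl_spec _ _ hB2, pl_spec _ _ hB3, ?_⟩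
  rw [Nat.testBit_one_eq_true_iff_self_eq_zero] at h
  omega

/-- alternating mask with `m` ones. -/
def alt (m : ℕ) : ℕ := (4 ^ m - 1) / 3

theorem alt_succ (m : ℕ) : alt (m + 1) = 4 * alt m + 1 := by
  unfold alt
  have h1 : 4 ^ m % 3 = 1 := by
    rw [Nat.pow_mod]; simp
  have h2 : 1 ≤ 4 ^ m := Nat.one_le_pow _ _ (by norm_num)
  have : 4 ^ (m + 1) = 4 * 4 ^ m := by ring
  omega

theorem alt_testBit (m i : ℕ) (h : i < m) : (alt m).testBit (2 * i) = true := by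
  induction m generalizing i with
  | zero => omega
  | succ m ih =>
    rw [alt_succ]
    rcases i with _ | i
    · simp [Nat.testBit_zero]
      omega
    · rw [show 2 * (i + 1) = (2 * i + 1) + 1 by ring, Nat.testBit_succ, Nat.testBit_succ]
      have : (4 * alt m + 1) / 2 / 2 = alt m := by omega
      rw [this]
      exact ih i (by omega)

/-- the mask of the numbers below `3 ^ k` with the parity of `p` (`3 ^ k = 2 h + 1`). -/
def pm (k p : ℕ) : ℕ := bif Nat.beq (p % 2) 0 then alt ((3 ^ k + 1) / 2) else 2 * alt (3 ^ k / 2)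

theorem pm_spec {k p M : ℕ} (hM : M < 3 ^ k) (h : (M + p) % 2 = 0) :
    (pm k p).testBit M = true := by
  unfold pm
  rcases Nat.mod_two_eq_zero_or_one p with hp | hp
  · rw [hp]
    have h0 : M = 2 * (M / 2) := by omega
    rw [h0]
    have : Nat.beq 0 0 = true := rfl
    simp only [this, cond_true]
    exact alt_testBit _ _ (by omega)
  · rw [hp]
    have h1 : M = (2 * (M / 2)) + 1 := by omega
    have h2 : M / 2 < 3 ^ k / 2 := by
      have h3 : 3 ^ k % 2 = 1 := by rw [Nat.pow_mod]; simp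
      omega
    rw [h1, Nat.testBit_succ]
    have : Nat.beq 1 0 = false := rfl
    simp only [this, cond_false, Nat.mul_div_cancel_left _ (Nat.zero_lt_two)]
    exact alt_testBit _ _ h2

theorem testBit_of_and_eq {a b x : ℕ} (h : a &&& b = a) (hx : a.testBit x = true) :
    b.testBit x = true := by
  rw [← h, Nat.testBit_and, Bool.and_eq_true] at hx
  exact hx.2


/-- union of the right translates. -/
def shiftsR (l : List ℕ) (m : ℕ) : ℕ := l.foldr (fun a s => (m >>> a) ||| s) 0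

theorem shiftsR_spec {l : List ℕ} {m x : ℕ} (h : (shiftsR l m).testBit x = true) :
    ∃ a ∈ l, m.testBit (a + x) = true := by
  induction l with
  | nil => simp [shiftsR] at h
  | cons b l ih =>
    simp only [shiftsR, List.foldr_cons, Nat.testBit_or, Bool.or_eq_true] at h
    rcases h with h | h
    · rw [Nat.testBit_shiftRight] at h
      exact ⟨b, by simp, h⟩
    · obtain ⟨a, ha, h1⟩ := ih h
      exact ⟨a, by simp [ha], h1⟩

/-! ### the certificate -/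

/-- a triple of offsets, with the tables of `(sum of digits, weighted sum)`. -/
structure Cb where
  d1 : ℕ
  d2 : ℕ
  d3 : ℕ
  tab : List (List ℕ)
  tab1 : List (List ℕ)

/-- the weight. -/
def Cb.W (b : Cb) : ℕ := 3 ^ b.d1 + 3 ^ b.d2 + 3 ^ b.d3

/-- the tables are correct. -/
def Cb.valid (b : Cb) (f : List (List ℕ)) (k : ℕ) : Prop :=
  ∀ s < 7, ∀ t ∈ f.getD s [], ∃ u1 ≤ k, ∃ u2 ≤ k, ∃ u3 ≤ k,
    u1 + u2 + u3 = s ∧ u1 * 3 ^ b.d1 + u2 * 3 ^ b.d2 + u3 * 3 ^ b.d3 = t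

/-- a node of the automaton. -/
structure Nd where
  p : ℕ
  lv : ℕ
  pl : ℕ
  pv : ℕ
  ptr : List ℕ
  ms : List ℕ
  ls : List ℕ

/-- a tree of nodes. -/
inductive Tr where
  | leaf (x : Nd) : Tr
  | node (l r : Tr) : Tr

/-- access. -/
def Tr.get : Tr → ℕ → Nd
  | .leaf x, _ => x
  | .node l r, i => bif Nat.beq (i % 2) 0 then l.get (i / 2) else r.get (i / 2)

/-- all leaves. -/
def Tr.all (f : Nd → Bool) : Tr → Bool
  | .leaf x => f x
  | .node l r => l.all f && r.all f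

theorem Tr.all_get {f : Nd → Bool} : ∀ (t : Tr), t.all f = true → ∀ i, f (t.get i) = true
  | .leaf x, h, _ => h
  | .node l r, h, i => by
    simp only [Tr.all, Bool.and_eq_true] at h
    simp only [Tr.get]
    cases Nat.beq (i % 2) 0 with
    | true => exact Tr.all_get l h.1 _
    | false => exact Tr.all_get r h.2 _

/-- decoding a list of numbers in base 2048. -/
def decF : ℕ → ℕ → List ℕ
  | 0, _ => []
  | f + 1, n => bif Nat.beq n 0 then [] else (n % 2048) :: decF f (n / 2048)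

/-- decoding. -/
def dec (n : ℕ) : List ℕ := decF 200 n

/-- a system. -/
structure Sy where
  E : ℕ
  r0 : ℕ
  J : ℕ
  sd : ℕ
  cbs : List Cb

/-- the `j`-th triple. -/
def Sy.cb (S : Sy) (j : ℕ) : Cb := S.cbs.getD j ⟨0, 0, 0, [], []⟩

/-- the list of a slot. -/
def Nd.lst (x : Nd) (j c : ℕ) : List ℕ := dec (x.ls.getD (3 * j + c) 0)

/-- the mask of a slot. -/
def Nd.msk (x : Nd) (j c : ℕ) : ℕ := x.ms.getD (3 * j + c) 0

/-- conjunction over `0, 1, 2`. -/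
def all3 (f : ℕ → Bool) : Bool := f 0 && (f 1 && f 2)

theorem all3_spec {f : ℕ → Bool} (h : all3 f = true) : ∀ i < 3, f i = true := by
  simp only [all3, Bool.and_eq_true] at h
  intro i hi
  interval_cases i
  · exact h.1
  · exact h.2.1
  · exact h.2.2

/-- conjunction over `0, …, n - 1`. -/
def allB : ℕ → (ℕ → Bool) → Bool
  | 0, _ => true
  | n + 1, f => f n && allB n f

theorem allB_spec {n : ℕ} {f : ℕ → Bool} (h : allB n f = true) : ∀ i < n, f i = true := by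
  induction n with
  | zero => intro i hi; omega
  | succ n ih =>
    simp only [allB, Bool.and_eq_true] at h
    intro i hi
    rcases Nat.lt_succ_iff_lt_or_eq.1 hi with h1 | h1
    · exact ih h.2 i h1
    · exact h1 ▸ h.1

/-- the spread mask of a list. -/
def spr (l : List ℕ) : ℕ := shifts (l.map fun q => 3 * q) 1

theorem spr_spec {l : List ℕ} {x : ℕ} (h : (spr l).testBit x = true) : ∃ q ∈ l, 3 * q = x := by
  obtain ⟨a, ha, h1, h2⟩ := shifts_spec h
  obtain ⟨q, hq, rfl⟩ := List.mem_map.1 ha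
  rw [Nat.testBit_one_eq_true_iff_self_eq_zero] at h2
  exact ⟨q, hq, by omega⟩

/-- contribution of the carry `c` to the image. -/
def im1 (b : Cb) (sp dR c' c : ℕ) : ℕ :=
  bif Nat.ble c (dR + 3 * c') then shiftsR (b.tab.getD (dR + 3 * c' - c) []) sp else 0

theorem im1_spec {b : Cb} {sp dR c' c x : ℕ} (h : (im1 b sp dR c' c).testBit x = true) :
    c ≤ dR + 3 * c' ∧ ∃ t ∈ b.tab.getD (dR + 3 * c' - c) [], sp.testBit (t + x) = true := by
  unfold im1 at h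
  rcases hc : Nat.ble c (dR + 3 * c') with _ | _
  · rw [hc] at h; simp at h
  · rw [hc, cond_true] at h
    exact ⟨Nat.le_of_ble_eq_true hc, shiftsR_spec h⟩

/-- the image of a node. -/
def img (b : Cb) (s0 s1 s2 dR c' : ℕ) : ℕ :=
  im1 b s0 dR c' 0 ||| (im1 b s1 dR c' 1 ||| im1 b s2 dR c' 2)

/-- the step check for one triple. -/
def chkJ (S : Sy) (x : Nd) (g : ℕ → Nd) (al : ℕ → Bool) (j : ℕ) : Bool :=
  all3 fun dR => all3 fun c' =>
    let im := img (S.cb j) (spr (x.lst j 0)) (spr (x.lst j 1)) (spr (x.lst j 2)) dR c'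
    all3 fun dL => (!(al dL)) ||
      Nat.beq (((g (3 * dL + dR)).msk j c') &&& (im >>> (dL * 3 ^ S.E)))
        ((g (3 * dL + dR)).msk j c')

/-- the list of a slot lies in its mask. -/
def chkL (x : Nd) (j : ℕ) : Bool :=
  all3 fun c => (x.lst j c).all fun q => (x.msk j c).testBit q

/-- the closing mask. -/
def clo (S : Sy) (x : Nd) (r : ℕ) : ℕ → ℕ
  | 0 => 0
  | j + 1 =>
    ((shifts ((x.lst j 0).map fun q => 3 ^ r * q) (zm (r + (S.cb j).d1) (r + (S.cb j).d2)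
        (r + (S.cb j).d3)) |||
      (shifts ((x.lst j 1).map fun q => 3 ^ r * q + 1) (zm (r + (S.cb j).d1) (r + (S.cb j).d2)
        (r + (S.cb j).d3)) |||
      shifts ((x.lst j 2).map fun q => 3 ^ r * q + 2) (zm (r + (S.cb j).d1) (r + (S.cb j).d2)
        (r + (S.cb j).d3)))) >>> (3 ^ r * (S.cb j).W)) ||| clo S x r j

/-- the closing check. -/
def chkC (S : Sy) (x : Nd) (r : ℕ) : Bool :=
  Nat.beq (pm (r + S.E) (x.p + r + S.sd) &&& clo S x r S.J) (pm (r + S.E) (x.p + r + S.sd))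

/-- whether the left digit `dL` is allowed. -/
def Nd.al (x : Nd) (dL : ℕ) : Bool := Nat.beq x.pl 0 || Nat.beq (x.pv / 3 ^ (x.pl - 1)) dL

/-- compatibility of the data of a node and its successor. -/
def chkD (x y : Nd) (dL dR : ℕ) : Bool :=
  Nat.beq y.p ((x.p + dL + dR) % 2) && (Nat.ble y.lv (x.lv - 1) && (Nat.ble y.pl (x.pl - 1) &&
    Nat.beq y.pv ((x.pv % 3 ^ (x.pl - 1)) / 3 ^ (x.pl - 1 - y.pl))))

/-- the complete check of a node. -/
def chk (S : Sy) (T : Tr) (x : Nd) : Bool :=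
  (all3 fun dL => (!(x.al dL)) || all3 fun dR => chkD x (T.get (x.ptr.getD (3 * dL + dR) 0)) dL dR)
    && ((allB S.J fun j => chkJ S x (fun i => T.get (x.ptr.getD i 0)) x.al j)
    && ((allB S.J fun j => chkL x j)
    && ((Nat.ble x.pl 3 && (Nat.ble 1 x.pl || Nat.beq x.pv 0))
    && ((!(Nat.beq x.lv 0)) || (Nat.beq x.pl 0 && (chkC S x S.r0 && chkC S x (S.r0 + 1)))))))

end Pool.Agent.V11309.Anti
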