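import Pool.Agent.V11309.Anti.Core

/-!
Antipalindromic numbers in base 3 and the inductive description of their digit strings.
-/

namespace Pool.Agent.V11309.Anti

/-- `n` is antipalindromic in base 3: it is positive and the digits of its base 3 expansion
(without leading zeros) in positions `i` and `k - i` add up to `2`. -/
def Antipal (n : ℕ) : Prop :=
  0 < n ∧ ∀ i < (Nat.digits 3 n).length,
    (Nat.digits 3 n).getD i 0 + (Nat.digits 3 n).getD ((Nat.digits 3 n).length - 1 - i) 0 = 2

theorem digit_add (x L A j : ℕ) (hj : j < L) : (x * 3 ^ L + A) / 3 ^ j % 3 = A / 3 ^ j % 3 := by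
  obtain ⟨k, rfl⟩ : ∃ k, L = j + 1 + k := ⟨L - j - 1, by omega⟩
  have : x * 3 ^ (j + 1 + k) + A = A + 3 ^ j * (3 * (x * 3 ^ k)) := by
    rw [pow_add, pow_succ]; ring
  rw [this, Nat.add_mul_div_left _ _ (by positivity), Nat.add_mul_mod_self_left]

theorem P_spec {L a : ℕ} (h : P L a) :
    a < 3 ^ L ∧ ∀ i < L, a / 3 ^ i % 3 + a / 3 ^ (L - 1 - i) % 3 = 2 := by
  induction h with
  | zero => exact ⟨by norm_num, fun i hi => by omega⟩
  | one =>
    refine ⟨by norm_num, fun i hi => ?_⟩
    interval_cases i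
    norm_num
  | @step L A u hu h ih =>
    obtain ⟨hA, hd⟩ := ih
    have hlow : 3 * A + u < 3 ^ (L + 1) := by rw [pow_succ]; omega
    have e1 : (2 - u) * 3 ^ (L + 1) + 3 * A + u = (2 - u) * 3 ^ (L + 1) + (3 * A + u) := by ring
    rw [e1]
    have top : ((2 - u) * 3 ^ (L + 1) + (3 * A + u)) / 3 ^ (L + 1) = 2 - u := by
      rw [add_comm ((2 - u) * 3 ^ (L + 1)), Nat.add_mul_div_right _ _ (by positivity),
        Nat.div_eq_of_lt hlow, zero_add]
    have bot : ((2 - u) * 3 ^ (L + 1) + (3 * A + u)) % 3 = u := by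
      have : (2 - u) * 3 ^ (L + 1) + (3 * A + u) = 3 * ((2 - u) * 3 ^ L + A) + u := by
        rw [pow_succ]; ring
      rw [this]; omega
    have mid : ∀ i, 0 < i → i < L + 1 →
        ((2 - u) * 3 ^ (L + 1) + (3 * A + u)) / 3 ^ i % 3 = A / 3 ^ (i - 1) % 3 := by
      intro i h0 hi
      rw [digit_add _ _ _ _ hi]
      obtain ⟨k, rfl⟩ : ∃ k, i = k + 1 := ⟨i - 1, by omega⟩
      rw [pow_succ', ← Nat.div_div_eq_div_mul, Nat.add_sub_cancel]
      congr 2
      omega
    refine ⟨?_, ?_⟩
    · have : (2 - u) * 3 ^ (L + 1) ≤ 2 * 3 ^ (L + 1) := Nat.mul_le_mul_right _ (by omega)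
      have e2 : 3 ^ (L + 2) = 3 * 3 ^ (L + 1) := by ring
      omega
    · intro i hi
      rcases Nat.eq_zero_or_pos i with rfl | h0
      · rw [show L + 2 - 1 - 0 = L + 1 by omega, pow_zero, Nat.div_one, bot, top]
        omega
      · rcases Nat.lt_or_ge i (L + 1) with h1 | h1
        · rw [mid i h0 h1, mid (L + 2 - 1 - i) (by omega) (by omega)]
          have := hd (i - 1) (by omega)
          rwa [show L - 1 - (i - 1) = L + 2 - 1 - i - 1 by omega] at this
        · obtain rfl : i = L + 1 := by omega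
          rw [show L + 2 - 1 - (L + 1) = 0 by omega, pow_zero, Nat.div_one, bot, top]
          omega

theorem antipal_of_P {L a : ℕ} (h : P (L + 1) a) (ha : 3 ^ L ≤ a) : Antipal a := by
  obtain ⟨h1, h2⟩ := P_spec h
  have hpos : 0 < a := lt_of_lt_of_le (by positivity) ha
  have hlen : (Nat.digits 3 a).length = L + 1 := by
    rw [Nat.length_digits 3 a (by norm_num) (by omega), Nat.log_eq_of_pow_le_of_lt_pow ha h1]
  refine ⟨hpos, fun i hi => ?_⟩
  rw [hlen] at hi ⊢
  rw [Nat.getD_digits _ _ (by norm_num), Nat.getD_digits _ _ (by norm_num)]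
  exact h2 i hi

theorem antipal_digits {a : ℕ} (h : Antipal a) : ∃ L, 3 ^ L ≤ a ∧ a < 3 ^ (L + 1) ∧
    ∀ i < L + 1, a / 3 ^ i % 3 + a / 3 ^ (L - i) % 3 = 2 := by
  obtain ⟨hpos, h⟩ := h
  have hlen : (Nat.digits 3 a).length = Nat.log 3 a + 1 :=
    Nat.length_digits 3 a (by norm_num) (by omega)
  refine ⟨Nat.log 3 a, Nat.pow_log_le_self 3 (by omega), Nat.lt_pow_succ_log_self (by norm_num) a,
    fun i hi => ?_⟩
  have := h i (by rw [hlen]; exact hi)
  rw [hlen, Nat.getD_digits _ _ (by norm_num), Nat.getD_digits _ _ (by norm_num)] at this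
  simpa using this

/-- a sum of at most three antipalindromic numbers. -/
def Sum3 (N : ℕ) : Prop :=
  Antipal N ∨ (∃ a b, Antipal a ∧ Antipal b ∧ N = a + b) ∨
    ∃ a b c, Antipal a ∧ Antipal b ∧ Antipal c ∧ N = a + b + c

/-! ### small numbers -/

/-- antipalindromic numbers with exactly `L` digits. -/
def al : ℕ → List ℕ
  | 0 => []
  | 1 => [1]
  | L + 2 => (pl L).flatMap fun A => [2 * 3 ^ (L + 1) + 3 * A, 3 ^ (L + 1) + 3 * A + 1]

theorem al_spec : ∀ L a, a ∈ al L → Antipal a
  | 0, a, h => by simp [al] at h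
  | 1, a, h => by
    simp only [al, List.mem_singleton] at h
    subst h
    exact antipal_of_P (L := 0) P.one (by norm_num)
  | L + 2, a, h => by
    simp only [al, List.mem_flatMap, List.mem_cons, List.not_mem_nil, or_false] at h
    obtain ⟨A, hA, h⟩ := h
    have hP := pl_spec L A hA
    rcases h with rfl | rfl
    · exact antipal_of_P (L := L + 1) (by simpa using P.step 0 (by norm_num) hP) (by omega)
    · exact antipal_of_P (L := L + 1) (by simpa using P.step 1 (by norm_num) hP) (by omega)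

/-- antipalindromic numbers with at most `n` digits. -/
def als : ℕ → List ℕ
  | 0 => []
  | n + 1 => al (n + 1) ++ als n

theorem als_spec : ∀ n a, a ∈ als n → Antipal a
  | 0, a, h => by simp [als] at h
  | n + 1, a, h => by
    simp only [als, List.mem_append] at h
    rcases h with h | h
    · exact al_spec _ _ h
    · exact als_spec n a h

end Pool.Agent.V11309.Anti
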