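import Pool.Agent.V11309.Anti.Sound
import Pool.Agent.V11309.Anti.Def

/-!
Pieces: leading digits and parity class.
-/

namespace Pool.Agent.V11309.Anti

/-- all numbers with `n ≥ 14` digits, leading digits `pv` (as a number with `pl` digits) and
`N + n + g` even are sums of three antipalindromic numbers. -/
def PieceOK (g pl pv : ℕ) : Prop :=
  ∀ n N : ℕ, 14 ≤ n → N < 3 ^ n → N / 3 ^ (n - pl) = pv → (N + n + g) % 2 = 0 → Sum3 N

theorem Tr.node_all {f : Nd → Bool} {l r : Tr} (hl : Tr.all f l = true) (hr : Tr.all f r = true) :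
    Tr.all f (.node l r) = true := by
  simp only [Tr.all, hl, hr, Bool.and_true]

theorem piece_of_root (S : Sy) (T : Tr) (hv : ∀ j < S.J, Ok (S.cb j) (S.cb j).tab 2)
    (hv1 : ∀ j < S.J, Ok (S.cb j) (S.cb j).tab1 1)
    (hE : S.r0 + S.E = 8) (hT : T.all (chk S T) = true)
    {g pl pv : ℕ} {ptr : List ℕ} (hg : (S.E + S.sd) % 2 = g % 2) (hpl0 : 0 < pl) (hpl : pl ≤ 3)
    (hR : chkR S T pl pv ptr = true) : PieceOK g pl pv := by
  intro n N hn hN hpre hpar
  obtain ⟨L1, L2, L3, a1, a2, a3, p1, p2, p3, g1, g2, g3, h⟩ :=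
    root S T hv hv1 hE hT hpl0 hpl hR hn hN hpre (by omega)
  exact Or.inr (Or.inr ⟨a1, a2, a3, antipal_of_P p1 g1, antipal_of_P p2 g2, antipal_of_P p3 g3, h⟩)

end Pool.Agent.V11309.Anti
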