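import Pool.Agent.V11309.Anti.Def

/-!
Sums of three antipalindromic numbers: the numbers below `3 ^ 13`.
-/

namespace Pool.Agent.V11309.Anti

/-- union of the translates by all antipalindromic numbers with at most `n` digits. -/
def msk : ℕ → ℕ → ℕ
  | 0, _ => 0
  | n + 1, m => shifts (al (n + 1)) m ||| msk n m

theorem msk_spec {m x : ℕ} : ∀ n, (msk n m).testBit x = true →
    ∃ a, Antipal a ∧ a ≤ x ∧ m.testBit (x - a) = true
  | 0, h => by simp [msk] at h
  | n + 1, h => by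
    simp only [msk, Nat.testBit_or, Bool.or_eq_true] at h
    rcases h with h | h
    · obtain ⟨a, ha, h1, h2⟩ := shifts_spec h
      exact ⟨a, al_spec _ _ ha, h1, h2⟩
    · exact msk_spec n h

/-- the mask of zero and the five exceptions. -/
def exc : ℕ := 2 ^ 0 ||| (2 ^ 24 ||| (2 ^ 37 ||| (2 ^ 49 ||| (2 ^ 117 ||| 2 ^ 421))))

/-- the check. -/
def smallChk (n k : ℕ) : Bool :=
  Nat.beq ((msk n 1 ||| (msk n (msk n 1) ||| (msk k (msk n (msk n 1)) ||| exc))) % 2 ^ (3 ^ n))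
    (2 ^ (3 ^ n) - 1)

theorem small_of_chk {n k : ℕ} (h : smallChk n k = true) {N : ℕ} (h0 : 0 < N) (hN : N < 3 ^ n)
    (h1 : N ≠ 24) (h2 : N ≠ 37) (h3 : N ≠ 49) (h4 : N ≠ 117) (h5 : N ≠ 421) : Sum3 N := by
  have h := Nat.eq_of_beq_eq_true h
  have hb : (2 ^ (3 ^ n) - 1).testBit N = true := by
    rw [Nat.testBit_two_pow_sub_one]; simpa using hN
  rw [← h, Nat.testBit_mod_two_pow] at hb
  simp only [Bool.and_eq_true, Nat.testBit_or, Bool.or_eq_true] at hb
  rcases hb.2 with hb | hb | hb | hb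
  · obtain ⟨a, ha, h6, h7⟩ := msk_spec n hb
    rw [Nat.testBit_one_eq_true_iff_self_eq_zero] at h7
    have : N = a := by omega
    exact Or.inl (this ▸ ha)
  · obtain ⟨a, ha, h6, h7⟩ := msk_spec n hb
    obtain ⟨b, hb, h8, h9⟩ := msk_spec n h7
    rw [Nat.testBit_one_eq_true_iff_self_eq_zero] at h9
    exact Or.inr (Or.inl ⟨a, b, ha, hb, by omega⟩)
  · obtain ⟨a, ha, h6, h7⟩ := msk_spec k hb
    obtain ⟨b, hb, h8, h9⟩ := msk_spec n h7
    obtain ⟨c, hc, h10, h11⟩ := msk_spec n h9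
    rw [Nat.testBit_one_eq_true_iff_self_eq_zero] at h11
    exact Or.inr (Or.inr ⟨a, b, c, ha, hb, hc, by omega⟩)
  · unfold exc at hb
    simp only [Nat.testBit_or, Bool.or_eq_true, Nat.testBit_two_pow, decide_eq_true_eq] at hb
    omega

end Pool.Agent.V11309.Anti
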