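import Pool.Agent.V11309.Anti.Small

namespace Pool.Agent.V11309.Anti

theorem small : smallChk 13 10 = true := by decide +kernel

end Pool.Agent.V11309.Anti
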