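import Pool.Agent.V11309.Anti.Core

/-!
Folded automata for sums of three antipalindromic numbers in base 3: soundness.
-/

namespace Pool.Agent.V11309.Anti

/-- the window `M` is reached from the node `x`. -/
def St (S : Sy) (x : Nd) (r M : ℕ) : Prop :=
  ∃ j < S.J, ∃ c < 3, ∃ q ∈ x.lst j c, V (S.cb j).d1 (S.cb j).d2 (S.cb j).d3 r M q c

/-- correctness of the tables. -/
def Ok (b : Cb) (f : List (List ℕ)) (k : ℕ) : Prop :=
  ∀ s < 9, ∀ t ∈ f.getD s [], ∃ u1 ≤ k, ∃ u2 ≤ k, ∃ u3 ≤ k,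
    u1 + u2 + u3 = s ∧ u1 * 3 ^ b.d1 + u2 * 3 ^ b.d2 + u3 * 3 ^ b.d3 = t

theorem chkJ_step {S : Sy} {x : Nd} {g : ℕ → Nd} {al : ℕ → Bool} {j : ℕ}
    (hv : Ok (S.cb j) (S.cb j).tab 2) (h : chkJ S x g al j = true)
    {dL dR c' q' : ℕ} (hdL : dL < 3) (hdR : dR < 3) (hc' : c' < 3) (hal : al dL = true)
    (hq' : ((g (3 * dL + dR)).msk j c').testBit q' = true) {r M' : ℕ}
    (hV : V (S.cb j).d1 (S.cb j).d2 (S.cb j).d3 r M' q' c') :
    ∃ c < 3, ∃ q ∈ x.lst j c,
      V (S.cb j).d1 (S.cb j).d2 (S.cb j).d3 (r + 2) (dL * 3 ^ (r + 1 + S.E) + 3 * M' + dR) q c := by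
  have h1 := all3_spec (all3_spec (all3_spec h dR hdR) c' hc') dL hdL
  simp only [hal, Bool.not_true, Bool.false_or] at h1
  have h2 := Nat.eq_of_beq_eq_true h1
  have h3 := testBit_of_and_eq h2 hq'
  rw [Nat.testBit_shiftRight] at h3
  have key : ∀ c < 3, (im1 (S.cb j) (spr (x.lst j c)) dR c' c).testBit (dL * 3 ^ S.E + q') = true →
      ∃ c < 3, ∃ q ∈ x.lst j c,
        V (S.cb j).d1 (S.cb j).d2 (S.cb j).d3 (r + 2)
          (dL * 3 ^ (r + 1 + S.E) + 3 * M' + dR) q c := by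
    intro c hc h4
    obtain ⟨h5, t, ht, h6⟩ := im1_spec h4
    obtain ⟨q, hq, h7⟩ := spr_spec h6
    obtain ⟨u1, hu1, u2, hu2, u3, hu3, hs, hw⟩ := hv (dR + 3 * c' - c) (by omega) t ht
    refine ⟨c, hc, q, hq, V_step hu1 hu2 hu3 ?_ ?_ hV⟩
    · rw [hw, h7]; ring
    · omega
  unfold img at h3
  simp only [Nat.testBit_or, Bool.or_eq_true] at h3
  rcases h3 with h3 | h3 | h3
  · exact key 0 (by norm_num) h3
  · exact key 1 (by norm_num) h3
  · exact key 2 (by norm_num) h3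

theorem clo_spec {S : Sy} {x : Nd} {r M : ℕ} : ∀ {J : ℕ}, (clo S x r J).testBit M = true →
    ∃ j < J, ∃ c < 3, ∃ q ∈ x.lst j c, V (S.cb j).d1 (S.cb j).d2 (S.cb j).d3 r M q c
  | 0, h => by simp [clo] at h
  | J + 1, h => by
    have key : ∀ c < 3, (shifts ((x.lst J c).map fun q => 3 ^ r * q + c)
        (zm (r + (S.cb J).d1) (r + (S.cb J).d2) (r + (S.cb J).d3))).testBit
          (3 ^ r * (S.cb J).W + M) = true →
        ∃ j < J + 1, ∃ c < 3, ∃ q ∈ x.lst j c,
          V (S.cb j).d1 (S.cb j).d2 (S.cb j).d3 r M q c := by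
      intro c hc h1
      obtain ⟨a, ha, h2, h3⟩ := shifts_spec h1
      obtain ⟨q, hq, rfl⟩ := List.mem_map.1 ha
      obtain ⟨B1, B2, B3, hB1, hB2, hB3, hs⟩ := zm_spec h3
      refine ⟨J, by omega, c, hc, q, hq, B1, B2, B3, hB1, hB2, hB3, ?_⟩
      rw [hs]
      unfold Cb.W at h2 ⊢
      omega
    unfold clo at h
    simp only [Nat.testBit_or, Bool.or_eq_true, Nat.testBit_shiftRight] at h
    rcases h with (h | h | h) | h
    · exact key 0 (by norm_num) (by simpa using h)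
    · exact key 1 (by norm_num) h
    · exact key 2 (by norm_num) h
    · obtain ⟨j, hj, h1⟩ := clo_spec h
      exact ⟨j, by omega, h1⟩

theorem claims (S : Sy) (T : Tr) (hv : ∀ j < S.J, Ok (S.cb j) (S.cb j).tab 2)
    (hE : 3 ≤ S.r0 + S.E) (hT : T.all (chk S T) = true) :
    ∀ r i, S.r0 + 2 * (T.get i).lv ≤ r → ∀ M, M < 3 ^ (r + S.E) →
      (M + (T.get i).p + r + S.sd) % 2 = 0 →
      M / 3 ^ (r + S.E - (T.get i).pl) = (T.get i).pv → St S (T.get i) r M := by
  intro r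
  induction r using Nat.strong_induction_on with
  | _ r ih =>
    intro i hr M hM hpar hpre
    have hx := Tr.all_get T hT i
    set x := T.get i with hxdef
    unfold chk at hx
    simp only [Bool.and_eq_true] at hx
    obtain ⟨hD, hJ, hL, ⟨hpl, hpl0⟩, hC⟩ := hx
    have hpl3 : x.pl ≤ 3 := Nat.le_of_ble_eq_true hpl
    by_cases hsmall : r < S.r0 + 2
    · have hlv : x.lv = 0 := by omega
      have hC' : Nat.beq x.lv 0 = true := by rw [hlv]; rfl
      rw [hC'] at hC
      simp only [Bool.not_true, Bool.false_or, Bool.and_eq_true] at hC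
      obtain ⟨-, hC0, hC1⟩ := hC
      have hCr : chkC S x r = true := by
        have : r = S.r0 ∨ r = S.r0 + 1 := by omega
        rcases this with rfl | rfl
        · exact hC0
        · exact hC1
      unfold chkC at hCr
      have h2 := Nat.eq_of_beq_eq_true hCr
      have h3 : (pm (r + S.E) (x.p + r + S.sd)).testBit M = true :=
        pm_spec hM (by rw [← hpar]; congr 1; ring)
      exact clo_spec (testBit_of_and_eq h2 h3)
    · obtain ⟨r', rfl⟩ : ∃ r', r = r' + 2 := ⟨r - 2, by omega⟩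
      -- decompose the window
      set m := r' + S.E with hm
      have hm3 : 3 ≤ m := by omega
      have e0 : r' + 2 + S.E = m + 2 := by omega
      rw [e0] at hM hpre
      set dR := M % 3 with hdR
      set M1 := M / 3 with hM1
      set dL := M1 / 3 ^ m with hdL
      set M' := M1 % 3 ^ m with hM'
      have hMd : M = 3 * M1 + dR := by omega
      have hM1d : M1 = 3 ^ m * dL + M' := (Nat.div_add_mod M1 (3 ^ m)).symm
      have hM'lt : M' < 3 ^ m := Nat.mod_lt _ (by positivity)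
      have hM1lt : M1 < 3 ^ m * 3 := by
        have : M < 3 ^ m * 3 * 3 := by rw [pow_succ, pow_succ] at hM; exact hM
        omega
      have hdL3 : dL < 3 := Nat.div_lt_of_lt_mul hM1lt
      have hdR3 : dR < 3 := Nat.mod_lt _ (by norm_num)
      have hMe : M = dL * 3 ^ (r' + 1 + S.E) + 3 * M' + dR := by
        rw [hMd, hM1d, show r' + 1 + S.E = m + 1 by omega, pow_succ]; ring
      -- the left digit is allowed
      have hdLe : M / 3 ^ (m + 1) = dL := by
        rw [hdL, hM1, Nat.div_div_eq_div_mul, pow_succ, mul_comm (3 ^ m) 3]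
      have hpow : ∀ a : ℕ, a ≤ m → 3 ^ m = 3 ^ (m - a) * 3 ^ a := by
        intro a ha; rw [← pow_add]; congr 1; omega
      have hal : x.al dL = true := by
        unfold Nd.al
        rcases Nat.eq_zero_or_pos x.pl with h0 | h0
        · rw [h0]; rfl
        · have h1 : x.pv / 3 ^ (x.pl - 1) = dL := by
            rw [← hpre, Nat.div_div_eq_div_mul, ← pow_add,
              show m + 2 - x.pl + (x.pl - 1) = m + 1 by omega]
            exact hdLe
          rw [h1]
          simp [Nat.beq_refl]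
      have hDd := all3_spec hD dL hdL3
      rw [hal] at hDd
      simp only [Bool.not_true, Bool.false_or] at hDd
      have hDR := all3_spec hDd dR hdR3
      unfold chkD at hDR
      simp only [Bool.and_eq_true] at hDR
      obtain ⟨k1, k2, k3, k4⟩ := hDR
      have k1 := Nat.eq_of_beq_eq_true k1
      have k2 := Nat.le_of_ble_eq_true k2
      have k3 := Nat.le_of_ble_eq_true k3
      have k4 := Nat.eq_of_beq_eq_true k4
      set y := T.get (x.ptr.getD (3 * dL + dR) 0) with hy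
      have hyprev : M' / 3 ^ (r' + S.E - y.pl) = y.pv := by
        rw [k4, ← hm]
        rcases Nat.eq_zero_or_pos x.pl with h0 | h0
        · have hy0 : y.pl = 0 := by omega
          rw [h0, hy0]
          simp only [Nat.sub_zero, zero_tsub, pow_zero, Nat.mod_one, Nat.zero_div]
          exact Nat.div_eq_of_lt hM'lt
        · -- the remaining leading digits
          have hMM : M' / 3 ^ (m - (x.pl - 1)) = x.pv % 3 ^ (x.pl - 1) := by
            have h5 : M1 / 3 ^ (m - (x.pl - 1)) = x.pv := by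
              rw [← hpre, hM1, Nat.div_div_eq_div_mul, ← pow_succ']
              congr 2
              omega
            rw [← h5, hM']
            have h6 : 3 ^ m = 3 ^ (m - (x.pl - 1)) * 3 ^ (x.pl - 1) := hpow _ (by omega)
            rw [h6, Nat.mod_mul_right_div_self]
          rw [← hMM, Nat.div_div_eq_div_mul, ← pow_add]
          congr 2
          omega
      have hypar : (M' + y.p + r' + S.sd) % 2 = 0 := by
        rw [k1]
        have h7 : (3 ^ (r' + 1 + S.E)) % 2 = 1 := by rw [Nat.pow_mod]; simp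
        have h8 : (dL * 3 ^ (r' + 1 + S.E)) % 2 = dL % 2 := by
          rw [Nat.mul_mod, h7, mul_one, Nat.mod_mod]
        omega
      have hylv : S.r0 + 2 * y.lv ≤ r' := by omega
      have hst := ih r' (by omega) (x.ptr.getD (3 * dL + dR) 0) hylv M' hM'lt hypar hyprev
      obtain ⟨j, hj, c', hc', q', hq', hV⟩ := hst
      have hLy : chkL y j = true := by
        have hy2 := Tr.all_get T hT (x.ptr.getD (3 * dL + dR) 0)
        rw [← hy] at hy2
        unfold chk at hy2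
        simp only [Bool.and_eq_true] at hy2
        exact allB_spec hy2.2.2.1 j hj
      have hbit : (y.msk j c').testBit q' = true := by
        have h9 := all3_spec hLy c' hc'
        exact List.all_eq_true.1 h9 q' hq'
      obtain ⟨c, hc, q, hq, hV'⟩ := chkJ_step (hv j hj) (allB_spec hJ j hj) hdL3 hdR3 hc' hal
        (by rw [hy] at hbit; exact hbit) hV
      exact ⟨j, hj, c, hc, q, hq, by rw [hMe]; exact hV'⟩

/-- the check at a root. -/
def chkR (S : Sy) (T : Tr) (pl pv : ℕ) (ptr : List ℕ) : Bool :=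
  all3 fun dR =>
    (Nat.beq (T.get (ptr.getD dR 0)).p ((pv / 3 ^ (pl - 1) + dR) % 2) &&
      (Nat.ble (T.get (ptr.getD dR 0)).lv 2 && (Nat.ble (T.get (ptr.getD dR 0)).pl (pl - 1) &&
      Nat.beq (T.get (ptr.getD dR 0)).pv
        ((pv % 3 ^ (pl - 1)) / 3 ^ (pl - 1 - (T.get (ptr.getD dR 0)).pl))))) &&
    allB S.J fun j => all3 fun c' => ((T.get (ptr.getD dR 0)).lst j c').all fun q' =>
      ((S.cb j).tab1.getD (dR + 3 * c') []).any fun t =>
        Nat.beq (3 * (S.cb j).W) (q' + t + pv / 3 ^ (pl - 1) * 3 ^ S.E)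

theorem root (S : Sy) (T : Tr) (hv : ∀ j < S.J, Ok (S.cb j) (S.cb j).tab 2)
    (hv1 : ∀ j < S.J, Ok (S.cb j) (S.cb j).tab1 1)
    (hE : S.r0 + S.E = 8) (hT : T.all (chk S T) = true)
    {pl pv : ℕ} {ptr : List ℕ} (hpl0 : 0 < pl) (hpl : pl ≤ 3) (hR : chkR S T pl pv ptr = true)
    {n N : ℕ} (hn : 14 ≤ n) (hN : N < 3 ^ n) (hpre : N / 3 ^ (n - pl) = pv)
    (hpar : (N + n + S.E + S.sd) % 2 = 0) :
    ∃ L1 L2 L3 a1 a2 a3, P (L1 + 1) a1 ∧ P (L2 + 1) a2 ∧ P (L3 + 1) a3 ∧
      3 ^ L1 ≤ a1 ∧ 3 ^ L2 ≤ a2 ∧ 3 ^ L3 ≤ a3 ∧ N = a1 + a2 + a3 := by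
  obtain ⟨r, rfl⟩ : ∃ r, n = r + 2 + S.E := ⟨n - 2 - S.E, by omega⟩
  set m := r + S.E with hm
  have e0 : r + 2 + S.E = m + 2 := by omega
  rw [e0] at hN hpre hn
  set dR := N % 3 with hdR
  set M1 := N / 3 with hM1
  set dL := M1 / 3 ^ m with hdL
  set M' := M1 % 3 ^ m with hM'
  have hMd : N = 3 * M1 + dR := by omega
  have hM1d : M1 = 3 ^ m * dL + M' := (Nat.div_add_mod M1 (3 ^ m)).symm
  have hM'lt : M' < 3 ^ m := Nat.mod_lt _ (by positivity)
  have hdR3 : dR < 3 := Nat.mod_lt _ (by norm_num)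
  have hMe : N = dL * 3 ^ (r + 1 + S.E) + 3 * M' + dR := by
    rw [hMd, hM1d, show r + 1 + S.E = m + 1 by omega, pow_succ]; ring
  have hdLe : N / 3 ^ (m + 1) = dL := by
    rw [hdL, hM1, Nat.div_div_eq_div_mul, pow_succ, mul_comm (3 ^ m) 3]
  have hdLp : pv / 3 ^ (pl - 1) = dL := by
    rw [← hpre, Nat.div_div_eq_div_mul, ← pow_add,
      show m + 2 - pl + (pl - 1) = m + 1 by omega]
    exact hdLe
  have hr := all3_spec hR dR hdR3
  simp only [Bool.and_eq_true] at hr
  obtain ⟨⟨k1, k2, k3, k4⟩, k5⟩ := hr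
  have k1 := Nat.eq_of_beq_eq_true k1
  have k2 := Nat.le_of_ble_eq_true k2
  have k3 := Nat.le_of_ble_eq_true k3
  have k4 := Nat.eq_of_beq_eq_true k4
  rw [hdLp] at k1 k5
  have hyprev : M' / 3 ^ (r + S.E - (T.get (ptr.getD dR 0)).pl) = (T.get (ptr.getD dR 0)).pv := by
    rw [k4, ← hm]
    have hMM : M' / 3 ^ (m - (pl - 1)) = pv % 3 ^ (pl - 1) := by
      have h5 : M1 / 3 ^ (m - (pl - 1)) = pv := by
        rw [← hpre, hM1, Nat.div_div_eq_div_mul, ← pow_succ']
        congr 2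
        omega
      rw [← h5, hM']
      have h6 : 3 ^ m = 3 ^ (m - (pl - 1)) * 3 ^ (pl - 1) := by
        rw [← pow_add]; congr 1; omega
      rw [h6, Nat.mod_mul_right_div_self]
    rw [← hMM, Nat.div_div_eq_div_mul, ← pow_add]
    congr 2
    omega
  have hypar : (M' + (T.get (ptr.getD dR 0)).p + r + S.sd) % 2 = 0 := by
    rw [k1]
    have h7 : (3 ^ (r + 1 + S.E)) % 2 = 1 := by rw [Nat.pow_mod]; simp
    have h8 : (dL * 3 ^ (r + 1 + S.E)) % 2 = dL % 2 := by
      rw [Nat.mul_mod, h7, mul_one, Nat.mod_mod]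
    omega
  obtain ⟨j, hj, c', hc', q', hq', hV⟩ := claims S T hv (by omega) hT r (ptr.getD dR 0)
    (by omega) M' hM'lt hypar hyprev
  have k6 := all3_spec (allB_spec k5 j hj) c' hc'
  have k7 := List.all_eq_true.1 k6 q' hq'
  obtain ⟨t, ht, k8⟩ := List.any_eq_true.1 k7
  have k8 := Nat.eq_of_beq_eq_true k8
  obtain ⟨u1, hu1, u2, hu2, u3, hu3, hs, hw⟩ := hv1 j hj (dR + 3 * c') (by omega) t ht
  obtain ⟨a1, a2, a3, p1, p2, p3, g1, g2, g3, hsum⟩ :=
    root_step (E := S.E) (dL := dL) (dR := dR) hu1 hu2 hu3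
      (by rw [hw]; exact k8) hs hV
  refine ⟨r + 1 + (S.cb j).d1, r + 1 + (S.cb j).d2, r + 1 + (S.cb j).d3, a1, a2, a3, ?_, ?_, ?_,
    g1, g2, g3, by rw [hMe]; exact hsum.symm⟩
  · rw [show r + 1 + (S.cb j).d1 + 1 = r + 2 + (S.cb j).d1 by ring]; exact p1
  · rw [show r + 1 + (S.cb j).d2 + 1 = r + 2 + (S.cb j).d2 by ring]; exact p2
  · rw [show r + 1 + (S.cb j).d3 + 1 = r + 2 + (S.cb j).d3 by ring]; exact p3

end Pool.Agent.V11309.Anti
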